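import Pool.Agent.Helper99.BK.Stmts

set_option autoImplicit false

namespace Pool.Helper99.BK

theorem DIM_card (m : ℕ) :
    2 * Nat.card ({n : Fin 2 →₀ ℕ | (n.sum fun _ e => e) ≤ m} : Set (Fin 2 →₀ ℕ)) =
      (m + 1) * (m + 2) := by
  classical
  let e : ({n : Fin 2 →₀ ℕ | (n.sum fun _ e => e) ≤ m} : Set (Fin 2 →₀ ℕ)) ≃
      (Σ k : Fin (m + 1), Fin (m + 1 - k)) :=
    { toFun := fun n => ⟨⟨n.1 0, by
          have h := n.2
          simp only [Set.mem_ofPred_eq] at h
          rw [Finsupp.sum_fintype _ _ (by simp), Fin.sum_univ_two] at h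
          omega⟩, ⟨n.1 1, by
          have h := n.2
          simp only [Set.mem_ofPred_eq] at h
          rw [Finsupp.sum_fintype _ _ (by simp), Fin.sum_univ_two] at h
          simp only
          omega⟩⟩
      invFun := fun p => ⟨Finsupp.equivFunOnFinite.symm ![p.1.1, p.2.1], by
          simp only [Set.mem_ofPred_eq]
          rw [Finsupp.sum_fintype _ _ (by simp), Fin.sum_univ_two]
          simp
          have := p.2.2
          omega⟩
      left_inv := by
        intro n
        apply Subtype.ext
        ext i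
        fin_cases i <;> simp
      right_inv := by
        intro p
        rcases p with ⟨⟨a, ha⟩, ⟨b, hb⟩⟩
        simp }
  rw [Nat.card_congr e]
  simp only [Nat.card_eq_fintype_card, Fintype.card_sigma, Fintype.card_fin]
  rw [Finset.sum_fin_eq_sum_range]
  clear e
  have h : ∀ m : ℕ, 2 * (∑ i ∈ Finset.range (m + 1), (m + 1 - i)) = (m + 1) * (m + 2) := by
    intro m
    rw [← Finset.sum_range_reflect]
    have h2 : ∀ i ∈ Finset.range (m + 1), (m + 1 - (m + 1 - 1 - i)) = i + 1 := by
      intro i hi
      rw [Finset.mem_range] at hi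
      omega
    rw [Finset.sum_congr rfl h2, Finset.sum_add_distrib]
    have h3 := Finset.sum_range_id_mul_two (m + 1)
    simp only [Finset.sum_const, Finset.card_range, smul_eq_mul, mul_one]
    have h4 : m + 1 - 1 = m := rfl
    rw [h4] at h3
    nlinarith
  rw [← h m]
  congr 1
  apply Finset.sum_congr rfl
  intro i hi
  rw [Finset.mem_range] at hi
  rw [dif_pos hi]

theorem st_DIM : ST_DIM := by
  intro m
  refine ⟨inferInstance, ?_⟩
  have h : Module.finrank ℂ (MvPolynomial.restrictTotalDegree (Fin 2) ℂ m) =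
      Nat.card ({n : Fin 2 →₀ ℕ | (n.sum fun _ e => e) ≤ m} : Set (Fin 2 →₀ ℕ)) :=
    Module.finrank_eq_nat_card_basis
      (MvPolynomial.basisRestrictSupport ℂ {n : Fin 2 →₀ ℕ | (n.sum fun _ e => e) ≤ m})
  rw [h]
  exact DIM_card m

end Pool.Helper99.BK
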